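import Pool.Agent.Helper77.SD.St2

/-! # Project SD, module COE -/

set_option autoImplicit false

namespace Pool.Agent.Helper68.SD

open Pool.Agent.Helper77.SD
open MeasureTheory Metric Set
open scoped Gradient RealInnerProductSpace ENNReal

instance secondCountable_clm {d : ℕ} : SecondCountableTopology (E d →L[ℝ] E d) :=
  haveI : ProperSpace (E d →L[ℝ] E d) := FiniteDimensional.proper ℝ _
  secondCountable_of_proper

lemma measurable_comp_clm {d : ℕ} {X : Type*} [MeasurableSpace X] {L A : X → E d →L[ℝ] E d}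
    (hL : Measurable L) (hA : Measurable A) : Measurable (fun x => L x ∘L A x) := by
  have h : Continuous (fun p : (E d →L[ℝ] E d) × (E d →L[ℝ] E d) => p.1 ∘L p.2) :=
    (isBoundedBilinearMap_comp (𝕜 := ℝ) (E := E d) (F := E d) (G := E d)).continuous
  exact h.measurable.comp (hL.prodMk hA)

theorem hCOE (h : StCV) : StCOE := by
  intro d Φ Ψ l l' κ hD B c δ M A V hA hV hcl hbV hpA hpV
  obtain ⟨-, hST, hTS, -⟩ := h d Φ Ψ l l' κ hD
  have hκ0 : 0 ≤ κ := (norm_nonneg _).trans (hD.bdd 0)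
  have hδ0 : 0 ≤ δ := (norm_nonneg _).trans (hcl 0)
  have hM0 : 0 ≤ M := (abs_nonneg _).trans (hbV 0)
  have cT : Continuous (fderiv ℝ Φ) := hD.smooth.continuous_fderiv (by norm_num)
  have cS : Continuous (fun x => fderiv ℝ Ψ (Φ x)) :=
    (hD.smooth'.continuous_fderiv (by norm_num)).comp hD.smooth.continuous
  have cJ : Continuous (fun x => |(fderiv ℝ Φ x).det|) :=
    (ContinuousLinearMap.continuous_det.comp cT).abs
  have cS' : Continuous (fun x => ContinuousLinearMap.adjoint (fderiv ℝ Ψ (Φ x))) :=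
    (ContinuousLinearMap.adjoint (𝕜 := ℝ) (E := E d) (F := E d)).continuous.comp cS
  have hperT : ∀ x, fderiv ℝ Φ (x + l) = fderiv ℝ Φ x := by
    intro x
    rw [← fderiv_comp_add_right (f := Φ) (x := x) l]
    have : (fun x => Φ (x + l)) = fun x => Φ x + l' := by ext1 x; exact hD.per x
    rw [this, fderiv_add_const]
  have hperΨ : ∀ y, Ψ (y + l') = Ψ y + l := by
    intro y
    have := hD.left (Ψ y + l)
    rwa [hD.per, hD.right] at this
  have hperS' : ∀ y, fderiv ℝ Ψ (y + l') = fderiv ℝ Ψ y := by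
    intro y
    rw [← fderiv_comp_add_right (f := Ψ) (x := y) l']
    have : (fun x => Ψ (x + l')) = fun x => Ψ x + l := by ext1 x; exact hperΨ x
    rw [this, fderiv_add_const]
  have hperS : ∀ x, fderiv ℝ Ψ (Φ (x + l)) = fderiv ℝ Ψ (Φ x) := by
    intro x; rw [hD.per, hperS']
  have hJ : ∀ x, |(fderiv ℝ Φ x).det| ≠ 0 := by
    intro x hx
    have h0 : (fderiv ℝ Φ x).det = 0 := abs_eq_zero.1 hx
    have h1 := congrArg ContinuousLinearMap.det (hST x)
    have h2 : ((fderiv ℝ Ψ (Φ x)) ∘L (fderiv ℝ Φ x)).det =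
        (fderiv ℝ Ψ (Φ x)).det * (fderiv ℝ Φ x).det := by
      simp only [ContinuousLinearMap.det, ContinuousLinearMap.toLinearMap_comp]
      exact LinearMap.det_comp _ _
    rw [h2, h0, mul_zero] at h1
    have h3 : (ContinuousLinearMap.id ℝ (E d)).det = 1 := by
      simp [ContinuousLinearMap.det]
    rw [h3] at h1
    exact zero_ne_one h1
  refine ⟨?_, ?_, ?_, ?_, ?_, ?_⟩
  · -- measurability of `pullA`
    have h1 : Measurable (fun x => A (Φ x)) := hA.comp hD.smooth.continuous.measurable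
    have h2 := measurable_comp_clm cS.measurable (measurable_comp_clm h1 cS'.measurable)
    exact cJ.measurable.smul h2
  · exact cJ.measurable.mul (hV.comp hD.smooth.continuous.measurable)
  · intro x
    have hadj : (ContinuousLinearMap.adjoint (fderiv ℝ Φ x)) ∘L (ContinuousLinearMap.adjoint (fderiv ℝ Ψ (Φ x))) =
        ContinuousLinearMap.id ℝ (E d) := by
      rw [← ContinuousLinearMap.adjoint_comp, hST x]
      exact ContinuousLinearMap.adjoint_id
    have hcB : c x • B x = |(fderiv ℝ Φ x).det| • ((fderiv ℝ Ψ (Φ x)) ∘L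
        (pushB Φ (fun x => c x • B x) x) ∘L (ContinuousLinearMap.adjoint (fderiv ℝ Ψ (Φ x)))) := by
      rw [pushB, ContinuousLinearMap.smul_comp, ContinuousLinearMap.comp_smul, smul_smul,
        mul_inv_cancel₀ (hJ x), one_smul]
      have e : (fderiv ℝ Ψ (Φ x)) ∘L (((fderiv ℝ Φ x) ∘L (c x • B x) ∘L
          (ContinuousLinearMap.adjoint (fderiv ℝ Φ x))) ∘L (ContinuousLinearMap.adjoint (fderiv ℝ Ψ (Φ x)))) =
          ((fderiv ℝ Ψ (Φ x)) ∘L (fderiv ℝ Φ x)) ∘L (c x • B x) ∘L
          ((ContinuousLinearMap.adjoint (fderiv ℝ Φ x)) ∘L (ContinuousLinearMap.adjoint (fderiv ℝ Ψ (Φ x)))) := by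
        simp only [ContinuousLinearMap.comp_assoc]
      rw [e, hST, hadj, ContinuousLinearMap.id_comp, ContinuousLinearMap.comp_id]
    have e2 : pullA Φ Ψ A x - c x • B x = |(fderiv ℝ Φ x).det| • ((fderiv ℝ Ψ (Φ x)) ∘L
        ((A (Φ x) - pushB Φ (fun x => c x • B x) x) ∘L
        (ContinuousLinearMap.adjoint (fderiv ℝ Ψ (Φ x))))) := by
      rw [hcB, pullA]
      ext1 y
      simp only [ContinuousLinearMap.sub_apply, ContinuousLinearMap.smul_apply, ContinuousLinearMap.comp_apply,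
        map_sub, smul_sub]
    rw [e2, norm_smul, Real.norm_eq_abs, abs_abs]
    have b1 := hD.jac x
    have b2 := hD.bdd' (Φ x)
    have b3 : ‖ContinuousLinearMap.adjoint (fderiv ℝ Ψ (Φ x))‖ ≤ κ := by
      rw [LinearIsometryEquiv.norm_map]; exact b2
    have b4 := hcl x
    have b5 : ‖(fderiv ℝ Ψ (Φ x)) ∘L ((A (Φ x) - pushB Φ (fun x => c x • B x) x) ∘L
        (ContinuousLinearMap.adjoint (fderiv ℝ Ψ (Φ x))))‖ ≤ κ * (δ * κ) := by
      refine (ContinuousLinearMap.opNorm_comp_le _ _).trans ?_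
      refine mul_le_mul b2 ?_ (norm_nonneg _) hκ0
      exact (ContinuousLinearMap.opNorm_comp_le _ _).trans (mul_le_mul b4 b3 (norm_nonneg _) hδ0)
    calc _ ≤ κ * (κ * (δ * κ)) := mul_le_mul b1 b5 (norm_nonneg _) hκ0
      _ = κ ^ 3 * δ := by ring
  · intro x
    rw [pullV, abs_mul, abs_abs]
    exact mul_le_mul (hD.jac x) (hbV _) (abs_nonneg _) hκ0
  · intro x
    rw [pullA, pullA, hperT, hperS, hD.per, hpA]
  · intro x
    rw [pullV, pullV, hperT, hD.per, hpV]

end Pool.Agent.Helper68.SD
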