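import Pool.Agent.Helper77.SD.St

/-! # Project SD, module KEY -/

set_option autoImplicit false

namespace Pool.Agent.Helper68.SD

open Pool.Agent.Helper77.SD
open MeasureTheory Metric Set
open scoped Gradient RealInnerProductSpace ENNReal

lemma dv_const {d : ℕ} (l : E d) (x : E d) : dv (fun _ : E d => l) x = 0 := by
  simp [dv]

lemma l2_B {d : ℕ} {B : E d → E d →L[ℝ] E d} {Λ : ℝ} (hB : Continuous B) (hb : ∀ x, ‖B x‖ ≤ Λ)
    {F : E d → E d} (hF : L2 F) : L2 (fun x => B x (F x)) := by
  refine l2_of_le (K := Λ) hF ?_ ?_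
  · exact (isBoundedBilinearMap_apply (𝕜 := ℝ) (E := E d) (F := E d)).continuous.comp_aestronglyMeasurable
      ((hB.aestronglyMeasurable).prodMk hF.1)
  · intro x
    exact ((B x).le_opNorm _).trans (mul_le_mul_of_nonneg_right (hb x) (norm_nonneg _))

theorem hKEY (h1 : StEST) (h2 : StSH) (h3 : StHT) (h4 : StDIVH) : StKEY := by
  intro d l η B c lam Λ c0 c1 P δ M τ A V u G W ε K hMet hCoef hSol hH hτ hW hε hK X N K₂ Y hX hN hK₂ hY
  have hest := h1 d l η B c lam Λ c0 c1 P δ M τ A V u G W ε K hMet hCoef hSol hH hτ.le hW hε hK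
  generalize hf : tf c τ η u = f at *
  generalize hF : tF c τ η u G = F at *
  -- signs
  have hε0 : 0 ≤ ε := (norm_nonneg _).trans (hε 0)
  have hK0 : 0 ≤ K := (abs_nonneg _).trans (hK 0)
  have hΛ0 : 0 ≤ Λ := (norm_nonneg _).trans (hMet.bddB 0)
  have hδ0 : 0 ≤ δ := (norm_nonneg _).trans (hCoef.close 0)
  have hM0 : 0 ≤ M := (abs_nonneg _).trans (hCoef.bddV 0)
  have hP0 : 0 ≤ P := hMet.P_nonneg
  have hc0 : 0 < c0 := hMet.c0_pos
  have hK₂0 : 0 ≤ K₂ := by rw [hK₂]; positivity
  have hY0 : 0 ≤ Y := by rw [hY]; positivity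
  have hX0 : 0 ≤ X := by rw [hX]; exact nrm_nonneg _
  have hN0 : 0 ≤ N := by rw [hN]; exact nrm_nonneg _
  have hD0 : 0 ≤ δ / c0 := by positivity
  rw [← hK₂, ← hY, ← hX, ← hN] at hest
  have hBF : L2 (fun x => B x (F x)) := l2_B hMet.contB hMet.bddB hH.l2G
  constructor
  · -- energy
    have he := hest f F hH
    rw [← hX, ← hN] at he
    have hz : ∫ x, ⟪F x, l⟫ * f x = 0 := by
      have h := h4 d (fun _ => l) 0 ‖l‖ contDiff_const (fun _ => le_rfl)
        (fun x => by simp [dv_const]) f f F F hH hH
      simp only [dv_const, zero_mul, integral_zero, neg_zero] at h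
      have h' : ∫ x, ⟪l, f x • F x + f x • F x⟫ = 2 * ∫ x, ⟪F x, l⟫ * f x := by
        rw [← integral_const_mul]
        congr 1; ext x
        rw [inner_add_right, inner_smul_right, real_inner_comm]
        ring
      rw [h'] at h
      linarith
    have hB : lam * X ^ 2 ≤ ∫ x, ⟪B x (F x), F x⟫ := by
      rw [hX, nrm_sq, ← integral_const_mul]
      refine integral_mono ((integrable_sq hH.l2G).const_mul _) (integrable_inner hBF hH.l2G) ?_
      intro x
      exact hMet.ell x (F x)
    have hff : ∫ x, f x * f x = N ^ 2 := by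
      rw [hN, nrm_sq]
      congr 1; ext x
      rw [Real.norm_eq_abs, sq_abs]; ring
    rw [hz, hff] at he
    have := (abs_le.1 he).2
    nlinarith [this, hB]
  · -- shift
    have key : ∀ t ∈ Icc (0 : ℝ) 1, ∫ x, ⟪F x, l⟫ * (f (x + t • l) - f (x - t • l)) ≤
        (ε * X * N + K₂ * N ^ 2 + δ / c0 * (X + Y * N) ^ 2) / τ := by
      intro t _
      have hp := (h3 d f f F F hH hH).2 (t • l)
      have hm := (h3 d f f F F hH hH).2 (-(t • l))
      have hg := (h3 d _ _ _ _ hp hm).1 1 (-1)
      have hg' : InH1 (fun x => f (x + t • l) - f (x - t • l)) (fun x => F (x + t • l) - F (x - t • l)) := by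
        have e1 : (fun x => f (x + t • l) - f (x - t • l)) =
            (fun x => 1 * f (x + t • l) + (-1) * f (x + -(t • l))) := by
          ext x; rw [← sub_eq_add_neg x]; ring
        have e2 : (fun x => F (x + t • l) - F (x - t • l)) =
            (fun x => (1 : ℝ) • F (x + t • l) + (-1 : ℝ) • F (x + -(t • l))) := by
          ext1 x; rw [← sub_eq_add_neg x, one_smul, neg_one_smul, ← sub_eq_add_neg]
        rw [e1, e2]; exact hg
      have he := hest _ _ hg'
      -- first term
      have i1 : L2 (fun x => F (x + t • l)) := l2_shift hH.l2G _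
      have i2 : L2 (fun x => F (x - t • l)) := by
        simpa [sub_eq_add_neg] using l2_shift hH.l2G (-(t • l))
      have j1 : L2 (fun x => f (x + t • l)) := l2_shift hH.l2 _
      have j2 : L2 (fun x => f (x - t • l)) := by
        simpa [sub_eq_add_neg] using l2_shift hH.l2 (-(t • l))
      have hz1 : ∫ x, ⟪B x (F x), F (x + t • l) - F (x - t • l)⟫ = 0 := by
        simp_rw [inner_sub_right]
        rw [integral_sub (integrable_inner hBF i1) (integrable_inner hBF i2)]
        have : ∫ x, ⟪B x (F x), F (x + t • l)⟫ = ∫ x, ⟪B x (F x), F (x - t • l)⟫ := by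
          rw [← integral_sub_right_eq_self (fun x => ⟪B x (F x), F (x + t • l)⟫) (t • l)]
          congr 1; ext x
          rw [sub_add_cancel]
          have hb : B (x - t • l) = B x := by
            have := hMet.inv x (-t)
            rwa [neg_smul, ← sub_eq_add_neg] at this
          rw [hb, hMet.symm, real_inner_comm]
        rw [this, sub_self]
      have hz2 : ∫ x, f x * (f (x + t • l) - f (x - t • l)) = 0 := by
        simp_rw [mul_sub]
        rw [integral_sub (integrable_mul hH.l2 j1) (integrable_mul hH.l2 j2)]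
        have : ∫ x, f x * f (x + t • l) = ∫ x, f x * f (x - t • l) := by
          rw [← integral_sub_right_eq_self (fun x => f x * f (x + t • l)) (t • l)]
          congr 1; ext x
          rw [sub_add_cancel, mul_comm]
        rw [this, sub_self]
      have n1 : nrm (fun x => f (x + t • l) - f (x - t • l)) ≤ 2 * N := by
        have h := nrm_sub_le j1 j2
        have e1 := nrm_shift f (t • l)
        have e2 := nrm_shift f (-(t • l))
        simp_rw [← sub_eq_add_neg] at e2
        rw [e1, e2, ← hN] at h
        linarith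
      have n2 : nrm (fun x => F (x + t • l) - F (x - t • l)) ≤ 2 * X := by
        have h := nrm_sub_le i1 i2
        have e1 := nrm_shift F (t • l)
        have e2 := nrm_shift F (-(t • l))
        simp_rw [← sub_eq_add_neg] at e2
        rw [e1, e2, ← hX] at h
        linarith
      rw [hz1, hz2] at he
      have hle := (abs_le.1 he).2
      have hg0 := nrm_nonneg (fun x => f (x + t • l) - f (x - t • l))
      have hG0 := nrm_nonneg (fun x => F (x + t • l) - F (x - t • l))
      generalize nrm (fun x => f (x + t • l) - f (x - t • l)) = gN at *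
      generalize nrm (fun x => F (x + t • l) - F (x - t • l)) = gX at *
      rw [le_div_iff₀ hτ]
      have b1 : ε / 2 * (X * gN + N * gX) ≤ ε / 2 * (X * (2 * N) + N * (2 * X)) := by gcongr
      have b2 : K₂ * (N * gN) ≤ K₂ * (N * (2 * N)) := by gcongr
      have b3 : δ / c0 * ((X + Y * N) * (gX + Y * gN)) ≤ δ / c0 * ((X + Y * N) * (2 * X + Y * (2 * N))) := by gcongr
      nlinarith [hle, b1, b2, b3]
    have h := h2 d l _ f F hH key
    calc τ * nrm (fun x => f (x + l) - f x) ^ 2
        ≤ τ * ((ε * X * N + K₂ * N ^ 2 + δ / c0 * (X + Y * N) ^ 2) / τ) := by gcongr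
      _ = _ := by field_simp

end Pool.Agent.Helper68.SD
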